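import Pool.Agent.Helper15.RA.GoalsH

/-!
# Project RA, packet H2: the bar map and the elements `c_w`.
-/

set_option autoImplicit false

open LaurentPolynomial

noncomputable section

namespace Pool.Agent.Helper4.RA

open Pool.Agent.Helper15.RA

variable {I W H : Type} [Group W] [Ring H] [Algebra ℤ[T;T⁻¹] H] {M : CoxeterMatrix I}
  {cs : CoxeterSystem M W} {L : W → ℕ}

theorem repr_mul_left (D : Hecke0 cs L H) (a Z : H) (y : W) :
    D.t.repr (a * Z) y = (D.t.repr Z).sum (fun z p => p * D.t.repr (a * D.t z) y) := by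
  conv_lhs => rw [← D.t.linearCombination_repr Z]
  rw [Finsupp.linearCombination_apply, Finsupp.sum, Finset.mul_sum, map_sum, Finsupp.finset_sum_apply,
    Finsupp.sum]
  refine Finset.sum_congr rfl (fun z _ => ?_)
  rw [mul_smul_comm, map_smul, Finsupp.smul_apply, smul_eq_mul]

theorem exists_max (D : Hecke0 cs L H) {Z : H} (hZ : Z ≠ 0) :
    ∃ y₀, D.t.repr Z y₀ ≠ 0 ∧ ∀ y, D.t.repr Z y ≠ 0 → cs.length y ≤ cs.length y₀ := by
  have h1 : (D.t.repr Z).support.Nonempty := by
    rw [Finsupp.support_nonempty_iff]
    intro h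
    exact hZ ((LinearEquiv.map_eq_zero_iff _).1 h)
  obtain ⟨y₀, h2, h3⟩ := Finset.exists_max_image (D.t.repr Z).support (fun y => cs.length y) h1
  exact ⟨y₀, Finsupp.mem_support_iff.1 h2, fun y hy => h3 y (Finsupp.mem_support_iff.2 hy)⟩

theorem h_h2 (h1 : H_1) : H_2 := by
  intro I W H _ _ _ M cs L hL D
  classical
  obtain ⟨t1, up, down, -, -, supp, -, -⟩ := h1 I W H M cs L D.toHecke0
  -- the bar map on scalars
  have barT : ∀ n : ℤ, D.bar ((T n : ℤ[T;T⁻¹]) • (1 : H)) = (T (-n) : ℤ[T;T⁻¹]) • (1 : H) := by
    intro n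
    have h := (D.bar_t n 1).1
    rwa [inv_one, t1, mul_one] at h
  have barp : ∀ p : ℤ[T;T⁻¹], D.bar (p • (1 : H)) = invert p • (1 : H) := by
    intro p
    induction p using LaurentPolynomial.induction_on' with
    | add p q hp hq => rw [add_smul, map_add, hp, hq, map_add, add_smul]
    | C_mul_T n a =>
      have h2 : ∀ m : ℤ, ((C a * T m : ℤ[T;T⁻¹]) • (1 : H)) = a • ((T m : ℤ[T;T⁻¹]) • (1 : H)) := by
        intro m
        have h3 : (C a : ℤ[T;T⁻¹]) = (a : ℤ[T;T⁻¹]) := by simp
        rw [h3, mul_smul, Int.cast_smul_eq_zsmul]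
      rw [h2, map_zsmul, barT, map_mul, invert_C, invert_T, h2]
  have semi : ∀ (p : ℤ[T;T⁻¹]) (Z : H), D.bar (p • Z) = invert p • D.bar Z := by
    intro p Z
    rw [← smul_one_mul p Z, map_mul, barp, smul_one_mul]
  -- the bar map on simple reflections
  have ss : ∀ i, D.t (cs.simple i) * D.t (cs.simple i) = xi (L (cs.simple i)) • D.t (cs.simple i) + 1 := by
    intro i
    have h := down i (cs.simple i) (by rw [cs.simple_mul_simple_self, cs.length_one, cs.length_simple])
    rwa [cs.simple_mul_simple_self, t1] at h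
  have bars : ∀ i, D.bar (D.t (cs.simple i)) = D.t (cs.simple i) - xi (L (cs.simple i)) • 1 := by
    intro i
    have h := (D.bar_t 0 (cs.simple i)).1
    rw [cs.inv_simple, T_zero, one_smul, neg_zero, T_zero, one_smul] at h
    have h2 : D.t (cs.simple i) * (D.t (cs.simple i) - xi (L (cs.simple i)) • 1) = 1 := by
      rw [mul_sub, ss, mul_smul_comm, mul_one]
      abel
    calc D.bar (D.t (cs.simple i)) = D.bar (D.t (cs.simple i)) *
          (D.t (cs.simple i) * (D.t (cs.simple i) - xi (L (cs.simple i)) • 1)) := by rw [h2, mul_one]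
      _ = _ := by rw [← mul_assoc, h, one_mul]
  -- triangularity of the bar map
  have tri : ∀ n w, cs.length w = n → D.t.repr (D.bar (D.t w)) w = 1 ∧
      ∀ y, D.t.repr (D.bar (D.t w)) y ≠ 0 → y = w ∨ cs.length y < cs.length w := by
    intro n
    induction n with
    | zero =>
      intro w hw
      rw [cs.length_eq_zero_iff] at hw
      subst hw
      have h2 : D.bar (D.t 1) = D.t 1 := by rw [t1, map_one]
      rw [h2]
      refine ⟨by rw [Module.Basis.repr_self, Finsupp.single_eq_same], fun y hy => Or.inl ?_⟩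
      by_contra h3
      apply hy
      rw [Module.Basis.repr_self, Finsupp.single_apply, if_neg (Ne.symm h3)]
    | succ n ih =>
      intro w hw
      have hw1 : w ≠ 1 := by
        rintro rfl
        rw [cs.length_one] at hw
        omega
      obtain ⟨i, hi⟩ := cs.exists_leftDescent_of_ne_one hw1
      rw [cs.isLeftDescent_iff] at hi
      set w' := cs.simple i * w with hw'
      have hww : cs.simple i * w' = w := by rw [hw', cs.simple_mul_simple_cancel_left]
      obtain ⟨h3, h4⟩ := ih w' (by omega)
      have h5 : D.t (cs.simple i) * D.t w' = D.t w := by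
        rw [up i w' (by rw [hww]; omega), hww]
      set Z := D.bar (D.t w') with hZ
      have h6 : D.bar (D.t w) = D.t (cs.simple i) * Z - xi (L (cs.simple i)) • Z := by
        rw [← h5, map_mul, bars, sub_mul, smul_one_mul]
      have h7 : ∀ z y, z ≠ w' → D.t.repr Z z ≠ 0 → D.t.repr (D.t (cs.simple i) * D.t z) y ≠ 0 →
          cs.length y < cs.length w := by
        intro z y hz1 hz2 hz3
        have h8 := (h4 z hz2).resolve_left hz1
        have h9 := supp (cs.simple i) z y hz3
        rw [cs.length_simple] at h9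
        omega
      have h10 : ∀ y, D.t.repr Z y ≠ 0 → cs.length y < cs.length w := by
        intro y hy
        rcases h4 y hy with h | h
        · rw [h]; omega
        · omega
      constructor
      · rw [h6, map_sub, Finsupp.sub_apply, map_smul, Finsupp.smul_apply, smul_eq_mul]
        have h11 : D.t.repr Z w = 0 := by
          by_contra h
          exact absurd (h10 w h) (lt_irrefl _)
        rw [h11, mul_zero, sub_zero, repr_mul_left, Finsupp.sum, Finset.sum_eq_single w']
        · rw [h3, one_mul, h5, Module.Basis.repr_self, Finsupp.single_eq_same]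
        · intro z hz hz1
          by_contra h12
          exact absurd (h7 z w hz1 (Finsupp.mem_support_iff.1 hz) (right_ne_zero_of_mul h12)) (lt_irrefl _)
        · intro h12
          rw [Finsupp.notMem_support_iff.1 h12, zero_mul]
      · intro y hy
        rw [h6, map_sub, Finsupp.sub_apply, map_smul, Finsupp.smul_apply, smul_eq_mul] at hy
        by_cases h13 : D.t.repr Z y = 0
        · rw [h13, mul_zero, sub_zero, repr_mul_left, Finsupp.sum] at hy
          obtain ⟨z, hz, hz2⟩ := Finset.exists_ne_zero_of_sum_ne_zero hy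
          by_cases hz1 : z = w'
          · left
            subst hz1
            have h14 := right_ne_zero_of_mul hz2
            rw [h5, Module.Basis.repr_self, Finsupp.single_apply] at h14
            by_contra h15
            exact h14 (if_neg (Ne.symm h15))
          · right
            exact h7 z y hz1 (Finsupp.mem_support_iff.1 hz) (right_ne_zero_of_mul hz2)
        · right
          exact h10 y h13
  have tri1 : ∀ w, D.t.repr (D.bar (D.t w)) w = 1 := fun w => (tri _ w rfl).1
  have tri2 : ∀ w y, D.t.repr (D.bar (D.t w)) y ≠ 0 → y = w ∨ cs.length y < cs.length w :=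
    fun w => (tri _ w rfl).2
  -- maximal elements of the support of a bar invariant element
  have maxi : ∀ (Z : H) (y₀ : W), D.bar Z = Z → D.t.repr Z y₀ ≠ 0 →
      (∀ y, D.t.repr Z y ≠ 0 → cs.length y ≤ cs.length y₀) →
      invert (D.t.repr Z y₀) = D.t.repr Z y₀ := by
    intro Z y₀ hZ hy hmax
    have h2 : D.bar Z = (D.t.repr Z).sum (fun z p => invert p • D.bar (D.t z)) := by
      conv_lhs => rw [← D.t.linearCombination_repr Z]
      rw [Finsupp.linearCombination_apply, Finsupp.sum, map_sum, Finsupp.sum]
      exact Finset.sum_congr rfl (fun z _ => semi _ _)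
    have h3 : D.t.repr Z y₀ = D.t.repr (D.bar Z) y₀ := by rw [hZ]
    conv_rhs => rw [h3, h2, Finsupp.sum, map_sum, Finsupp.finset_sum_apply]
    symm
    rw [Finset.sum_eq_single y₀]
    · rw [map_smul, Finsupp.smul_apply, tri1, smul_eq_mul, mul_one]
    · intro z hz hz1
      rw [map_smul, Finsupp.smul_apply, smul_eq_mul]
      by_contra h4
      rcases tri2 z y₀ (right_ne_zero_of_mul h4) with h5 | h5
      · exact hz1 h5.symm
      · have := hmax z (Finsupp.mem_support_iff.1 hz)
        omega
    · intro h4
      exact absurd (Finsupp.mem_support_iff.2 hy) h4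
  have coc : ∀ w y, y ≠ w → DegLE (-1) (D.t.repr (D.c w) y) := by
    intro w y hy
    have h := D.c_sub w y
    rw [map_sub, Finsupp.sub_apply, Module.Basis.repr_self, Finsupp.single_apply, if_neg (Ne.symm hy),
      sub_zero] at h
    exact h
  have cow : ∀ w, DegLE (-1) (D.t.repr (D.c w) w - 1) := by
    intro w
    have h := D.c_sub w w
    rw [map_sub, Finsupp.sub_apply, Module.Basis.repr_self, Finsupp.single_apply, if_pos rfl] at h
    exact h
  have cne : ∀ w, D.t.repr (D.c w) w ≠ 0 := by
    intro w h0
    have h := cow w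
    rw [h0, zero_sub] at h
    have h2 := h 0 (by omega)
    rw [AddMonoidAlgebra.coeff_neg, Finsupp.neg_apply, ← T_zero, T_apply, if_pos rfl] at h2
    norm_num at h2
  have cmax : ∀ w y₀, D.t.repr (D.c w) y₀ ≠ 0 →
      (∀ y, D.t.repr (D.c w) y ≠ 0 → cs.length y ≤ cs.length y₀) → y₀ = w := by
    intro w y₀ hy hmax
    by_contra h
    exact hy (eq_zero_of_invert (coc w y₀ h) (maxi _ _ (D.bar_c w) hy hmax))
  have clen : ∀ w y, D.t.repr (D.c w) y ≠ 0 → cs.length y ≤ cs.length w := by
    intro w y hy
    have h0 : D.c w ≠ 0 := by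
      intro h
      apply cne w
      rw [h, map_zero, Finsupp.zero_apply]
    obtain ⟨y₀, h2, h3⟩ := exists_max D.toHecke0 h0
    have h4 := cmax w y₀ h2 h3
    rw [← h4]
    exact h3 y hy
  have csup : ∀ w y, D.t.repr (D.c w) y ≠ 0 → y = w ∨ cs.length y < cs.length w := by
    intro w y hy
    rcases lt_or_eq_of_le (clen w y hy) with h | h
    · exact Or.inr h
    · left
      exact cmax w y hy (fun z hz => by rw [h]; exact clen w z hz)
  have cone : ∀ w, D.t.repr (D.c w) w = 1 := by
    intro w
    have h := maxi _ _ (D.bar_c w) (cne w) (clen w)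
    have h2 : D.t.repr (D.c w) w - 1 = 0 := by
      apply eq_zero_of_invert (cow w)
      rw [map_sub, h, map_one]
    exact sub_eq_zero.1 h2
  have uniq : ∀ w Z, D.bar Z = Z → (∀ y, DegLE (-1) (D.t.repr (Z - D.t w) y)) → Z = D.c w := by
    intro w Z hZ hdeg
    by_contra h
    have h0 : Z - D.c w ≠ 0 := sub_ne_zero.2 h
    obtain ⟨y₀, h2, h3⟩ := exists_max D.toHecke0 h0
    have h4 : D.bar (Z - D.c w) = Z - D.c w := by rw [map_sub, hZ, D.bar_c]
    have h5 : DegLE (-1) (D.t.repr (Z - D.c w) y₀) := by
      have h6 : Z - D.c w = (Z - D.t w) - (D.c w - D.t w) := by abel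
      rw [h6, map_sub, Finsupp.sub_apply]
      exact (hdeg y₀).sub (D.c_sub w y₀)
    exact h2 (eq_zero_of_invert h5 (maxi _ _ h4 h2 h3))
  have c1 : D.c 1 = 1 := by
    symm
    apply uniq 1 1 (map_one _)
    intro y
    rw [t1, sub_self, map_zero, Finsupp.zero_apply]
    exact DegLE.zero _
  have csimp : ∀ i, D.c (cs.simple i) =
      D.t (cs.simple i) + (T (-(L (cs.simple i) : ℤ)) : ℤ[T;T⁻¹]) • 1 := by
    intro i
    symm
    apply uniq
    · rw [map_add, bars, semi, map_one, invert_T, neg_neg, xi, sub_smul]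
      abel
    · intro y
      rw [add_sub_cancel_left, map_smul, Finsupp.smul_apply, smul_eq_mul, ← t1, Module.Basis.repr_self,
        Finsupp.single_apply]
      have hs : 0 < L (cs.simple i) := by
        apply hL.pos
        intro h
        have := cs.length_simple i
        rw [h, cs.length_one] at this
        omega
      split_ifs
      · rw [mul_one]
        exact DegLE.T_le (by omega)
      · rw [mul_zero]
        exact DegLE.zero _
  refine ⟨semi, tri1, tri2, cone, csup, coc, uniq, c1, csimp, ?_⟩
  intro i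
  have hq : D.c (cs.simple i) * (D.t (cs.simple i) - (T (L (cs.simple i) : ℤ) : ℤ[T;T⁻¹]) • 1) = 0 := by
    rw [csimp]
    exact D.quad i
  rw [mul_sub, mul_smul_comm, mul_one, sub_eq_zero] at hq
  conv_lhs => rw [show D.c (cs.simple i) * D.c (cs.simple i) = D.c (cs.simple i) * (D.t (cs.simple i) +
    (T (-(L (cs.simple i) : ℤ)) : ℤ[T;T⁻¹]) • 1) by rw [← csimp i]]
  rw [mul_add, hq, mul_smul_comm, mul_one, dl, add_smul]

end Pool.Agent.Helper4.RA
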